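import Pool.Agent.V11327.NTfinal

/-!
# Uncovered vertices of nearest neighbour trees under random insertion order: not polylogarithmic

The point sets are hierarchical: a set of level `m + 1` is a short horizontal hub of `34 * 36 ^ m`
equally spaced points and two arms, tiny rotated copies of the set of level `m` in the directions
`(3 ± 4 i) / 5`. Until the first arm is reached the topmost hub point is uncovered; an arm that attaches
to such a point starts with an uncovered vertex whose parent lies far away in the right direction.
The expected number of such arms is at least `17 / 18 + 2 / 27 = 55 / 54`.
-/

set_option autoImplicit false

open Pool.Agent.V11327.NT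

namespace Pool.Agent.Results.MP_bfac84_pr.SuperPolylog

/-- In the nearest neighbour tree on the 2-torus the expected number of uncovered vertices under a
uniformly random insertion order is not `O (polylog n)` uniformly over all point sets. -/
theorem result (C k : ℝ) : ∃ (n : ℕ) (x : Fin n → Torus 2), 2 ≤ n ∧ Function.Injective x ∧
    C * Real.log n ^ k < avgUnc x :=
  main C k

end Pool.Agent.Results.MP_bfac84_pr.SuperPolylog
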